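import Mathlib

/-!
# The pointwise Barbashin-type condition does not imply uniform exponential stability

On `X = ℓ¹` (real or complex) consider `A n x = x n • e (n + 1)`. The evolution operators are
`A_m^k x = x k • e m` for `m > k`, so `∑ k ≤ m, ‖A_m^k x‖ = ∑ k < m, |x k| + ‖x‖ ≤ 2 ‖x‖` for all
`m` and `x`, while `‖A_m^k (e k)‖ = 1` for all `m ≥ k`: the system is not uniformly exponentially
stable.
-/

set_option autoImplicit false

namespace Pool.Agent.Results.MP_a62e4d_an.PointwiseBarbashinFails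

/-- The evolution operators of the system `x (n + 1) = A n (x n)`: for `m ≥ k`,
`evolution A m k = A (m - 1) ∘ ... ∘ A (k + 1) ∘ A k` (and the identity for `m = k`). -/
noncomputable def evolution {𝕜 X : Type} [RCLike 𝕜] [NormedAddCommGroup X] [NormedSpace 𝕜 X]
    (A : ℕ → X →L[𝕜] X) : ℕ → ℕ → X →L[𝕜] X
  | 0, _ => ContinuousLinearMap.id 𝕜 X
  | m + 1, k => if k ≤ m then (A m).comp (evolution A m k) else ContinuousLinearMap.id 𝕜 X

/-- Uniform exponential stability. -/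
def UniformlyExponentiallyStable {𝕜 X : Type} [RCLike 𝕜] [NormedAddCommGroup X] [NormedSpace 𝕜 X]
    (A : ℕ → X →L[𝕜] X) : Prop :=
  ∃ N ν : ℝ, 1 ≤ N ∧ 0 < ν ∧ ∀ m k : ℕ, k ≤ m → ∀ x : X,
    ‖evolution A m k x‖ ≤ N * Real.exp (-(ν * ((m : ℝ) - k))) * ‖x‖

/-- Condition (iii): `∑ k ≤ m, ‖A_m^k x‖ ≤ B ‖x‖` for all `m` and `x`. -/
def PointwiseBarbashin {𝕜 X : Type} [RCLike 𝕜] [NormedAddCommGroup X] [NormedSpace 𝕜 X]
    (A : ℕ → X →L[𝕜] X) : Prop :=
  ∃ B : ℝ, 1 ≤ B ∧ ∀ (m : ℕ) (x : X),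
    ∑ k ∈ Finset.range (m + 1), ‖evolution A m k x‖ ≤ B * ‖x‖

section

variable (𝕜 : Type) [RCLike 𝕜]

/-- The space `ℓ¹`. -/
abbrev L1 : Type := lp (fun _ : ℕ => 𝕜) 1

/-- The operator `x ↦ x n • e (n + 1)`. -/
noncomputable def opA (n : ℕ) : L1 𝕜 →L[𝕜] L1 𝕜 :=
  (lp.singleContinuousLinearMap 𝕜 (fun _ : ℕ => 𝕜) 1 (n + 1)).comp
    (lp.evalCLM 𝕜 (fun _ : ℕ => 𝕜) 1 n)

lemma opA_apply (n : ℕ) (x : L1 𝕜) : opA 𝕜 n x = lp.single (E := fun _ : ℕ => 𝕜) 1 (n + 1) (x n) := rfl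

lemma evolution_self (A : ℕ → L1 𝕜 →L[𝕜] L1 𝕜) (m : ℕ) (x : L1 𝕜) : evolution A m m x = x := by
  cases m with
  | zero => rfl
  | succ m => simp [evolution]

lemma evolution_apply (m k : ℕ) (h : k < m) (x : L1 𝕜) :
    evolution (opA 𝕜) m k x = lp.single (E := fun _ : ℕ => 𝕜) 1 m (x k) := by
  induction m with
  | zero => omega
  | succ m ih =>
    have hk : k ≤ m := by omega
    simp only [evolution, if_pos hk, ContinuousLinearMap.comp_apply, opA_apply]
    rcases hk.eq_or_lt with h1 | h1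
    · subst h1
      rw [evolution_self]
    · rw [ih h1]
      congr 1
      exact lp.single_apply_self _ _ _

lemma norm_single' (i : ℕ) (a : 𝕜) : ‖(lp.single (E := fun _ : ℕ => 𝕜) 1 i a : L1 𝕜)‖ = ‖a‖ :=
  lp.norm_single (E := fun _ : ℕ => 𝕜) (p := 1) zero_lt_one i a

end

/-- **Negative answer to Q1.** Over `𝕜 = ℝ` and over `𝕜 = ℂ` there are a Banach space `X` and a
sequence of bounded operators on `X` which satisfies condition (iii) but is not uniformly
exponentially stable. -/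
theorem result (𝕜 : Type) [RCLike 𝕜] :
    ∃ (X : Type) (_ : NormedAddCommGroup X) (_ : NormedSpace 𝕜 X) (_ : CompleteSpace X)
      (A : ℕ → X →L[𝕜] X), PointwiseBarbashin A ∧ ¬ UniformlyExponentiallyStable A := by
  refine ⟨L1 𝕜, inferInstance, inferInstance, inferInstance, opA 𝕜, ⟨2, by norm_num, ?_⟩, ?_⟩
  · intro m x
    rw [Finset.sum_range_succ, evolution_self]
    have h1 : ∑ k ∈ Finset.range m, ‖evolution (opA 𝕜) m k x‖ ≤ ‖x‖ := by
      have h2 := lp.sum_rpow_le_norm_rpow (p := 1) (by norm_num) x (Finset.range m)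
      simp only [ENNReal.toReal_one, Real.rpow_one] at h2
      refine le_trans (le_of_eq (Finset.sum_congr rfl fun k hk => ?_)) h2
      rw [evolution_apply 𝕜 m k (Finset.mem_range.1 hk), norm_single']
    linarith
  · rintro ⟨N, ν, hN, hν, h⟩
    have h1 : ∀ m : ℕ, 0 < m → Real.exp (ν * m) ≤ N := by
      intro m hm
      have h2 := h m 0 (Nat.zero_le m) (lp.single (E := fun _ : ℕ => 𝕜) 1 0 (1 : 𝕜))
      rw [evolution_apply 𝕜 m 0 hm, lp.single_apply_self, norm_single', norm_single', norm_one,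
        mul_one, Nat.cast_zero, sub_zero, Real.exp_neg] at h2
      have h3 : 0 < Real.exp (ν * m) := Real.exp_pos _
      have h4 := mul_le_mul_of_nonneg_right h2 h3.le
      rwa [one_mul, mul_assoc, inv_mul_cancel₀ h3.ne', mul_one] at h4
    obtain ⟨m, hm⟩ := exists_nat_gt (N / ν)
    have h5 := h1 (m + 1) (Nat.succ_pos m)
    have h6 : ν * ((m + 1 : ℕ) : ℝ) + 1 ≤ Real.exp (ν * ((m + 1 : ℕ) : ℝ)) :=
      Real.add_one_le_exp _
    rw [div_lt_iff₀ hν] at hm
    push_cast at h5 h6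
    nlinarith

end Pool.Agent.Results.MP_a62e4d_an.PointwiseBarbashinFails
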